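import Pool.Agent.H586.AF.B

/-!
# AF-G1: the intertwining relation, components 1, 3, 4 (helper628)
-/

set_option autoImplicit false

open MeasureTheory Matrix Finset Filter Topology

namespace Pool.Agent.H628.AF

open Pool.Agent.H586.AF
open scoped Kronecker

noncomputable section

section k4
variable {R : Type} [CommRing R] {a b c d a' b' c' d' a'' b'' c'' d'' : Type}

theorem k4_eq (A : Matrix a a' R) (B : Matrix b b' R) (C : Matrix c c' R) (D : Matrix d d' R) :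
    k4 A B C D = A ⊗ₖ (B ⊗ₖ (C ⊗ₖ D)) := by
  ext x y
  simp only [k4, Matrix.kroneckerMap_apply]
  ring

theorem k4_mul [Fintype a'] [Fintype b'] [Fintype c'] [Fintype d']
    (A : Matrix a a' R) (B : Matrix b b' R) (C : Matrix c c' R) (D : Matrix d d' R)
    (A' : Matrix a' a'' R) (B' : Matrix b' b'' R) (C' : Matrix c' c'' R) (D' : Matrix d' d'' R) :
    k4 A B C D * k4 A' B' C' D' = k4 (A * A') (B * B') (C * C') (D * D') := by
  rw [k4_eq, k4_eq, k4_eq, Matrix.mul_kronecker_mul, Matrix.mul_kronecker_mul,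
    Matrix.mul_kronecker_mul]

theorem k4_add1 (A A' : Matrix a a' R) (B : Matrix b b' R) (C : Matrix c c' R)
    (D : Matrix d d' R) : k4 (A + A') B C D = k4 A B C D + k4 A' B C D := by
  ext x y
  simp only [k4, Matrix.add_apply]
  ring

theorem k4_sub1 (A A' : Matrix a a' R) (B : Matrix b b' R) (C : Matrix c c' R)
    (D : Matrix d d' R) : k4 (A - A') B C D = k4 A B C D - k4 A' B C D := by
  ext x y
  simp only [k4, Matrix.sub_apply]
  ring

theorem k4_smul1 (r : R) (A : Matrix a a' R) (B : Matrix b b' R) (C : Matrix c c' R)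
    (D : Matrix d d' R) : k4 (r • A) B C D = r • k4 A B C D := by
  ext x y
  simp only [k4, Matrix.smul_apply, smul_eq_mul]
  ring

theorem k4_smul2 (r : R) (A : Matrix a a' R) (B : Matrix b b' R) (C : Matrix c c' R)
    (D : Matrix d d' R) : k4 A (r • B) C D = r • k4 A B C D := by
  ext x y
  simp only [k4, Matrix.smul_apply, smul_eq_mul]
  ring

theorem k4_one [DecidableEq a] [DecidableEq b] [DecidableEq c] [DecidableEq d] :
    k4 (1 : Matrix a a R) (1 : Matrix b b R) (1 : Matrix c c R) (1 : Matrix d d R) = 1 := by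
  rw [k4_eq, Matrix.one_kronecker_one, Matrix.one_kronecker_one, Matrix.one_kronecker_one]

end k4

theorem k4_ct {a b c d a' b' c' d' : Type} (A : Matrix a a' ℂ) (B : Matrix b b' ℂ)
    (C : Matrix c c' ℂ) (D : Matrix d d' ℂ) : (k4 A B C D)ᴴ = k4 Aᴴ Bᴴ Cᴴ Dᴴ := by
  rw [k4_eq, k4_eq, Matrix.conjTranspose_kronecker, Matrix.conjTranspose_kronecker,
    Matrix.conjTranspose_kronecker]

theorem cx_ct {m n : Type} (A : Matrix m n ℝ) : (cx A)ᴴ = cx Aᵀ := by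
  ext i j
  simp [cx]

theorem cx_mul {m n p : Type} [Fintype n] (A : Matrix m n ℝ) (B : Matrix n p ℝ) :
    cx (A * B) = cx A * cx B := by
  ext i j
  simp [cx, Matrix.mul_apply]

theorem phs_ct {n : ℕ} (θ s x0 : ℝ) : (phs θ s x0 : Matrix (Fin n) (Fin n) ℂ)ᴴ = phs θ (-s) x0 := by
  unfold phs
  rw [Matrix.diagonal_conjTranspose]
  congr 1
  funext i
  simp only [Pi.star_apply, Complex.star_def]
  rw [← Complex.exp_conj, map_mul, Complex.conj_I, Complex.conj_ofReal]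
  congr 1
  push_cast
  ring

theorem phs_mul {n : ℕ} (θ s s' x0 : ℝ) :
    (phs θ s x0 : Matrix (Fin n) (Fin n) ℂ) * phs θ s' x0 = phs θ (s + s') x0 := by
  unfold phs
  rw [Matrix.diagonal_mul_diagonal]
  congr 1
  funext i
  rw [← Complex.exp_add]
  congr 1
  push_cast
  ring

theorem phs_zero {n : ℕ} (θ x0 : ℝ) : (phs θ 0 x0 : Matrix (Fin n) (Fin n) ℂ) = 1 := by
  unfold phs
  rw [← Matrix.diagonal_one]
  congr 1
  funext i
  simp

/-! ### the shifts -/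

theorem e0_ap {n m : ℕ} (j : Fin n) (i : Fin m) : e0 n m j i = if (i : ℕ) = j then 1 else 0 := rfl
theorem e1_ap {n m : ℕ} (j : Fin n) (i : Fin m) :
    e1 n m j i = if (i : ℕ) + 1 = j then 1 else 0 := rfl
theorem tm_ap {n : ℕ} (i j : Fin n) : tm n i j = if (j : ℕ) = i + 1 then 1 else 0 := rfl
theorem dm_ap {n m : ℕ} (j : Fin n) (i : Fin m) : dm n m j i =
    (if (i : ℕ) = j then 1 else 0) - (if (i : ℕ) + 1 = j then 1 else 0) := rfl
theorem nm_ap {n m : ℕ} (j : Fin n) (i : Fin m) : nm n m j i =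
    (if (i : ℕ) = j then 1 else 0) + (if (i : ℕ) + 1 = j then 1 else 0) := rfl
theorem cx_ap {m n : Type} (A : Matrix m n ℝ) (i : m) (j : n) : cx A i j = (A i j : ℂ) := rfl

theorem e0T_mul {L : ℕ} {p : Type} (M : Matrix (Fin L) p ℂ) (i : Fin (L - 1)) (k : p) :
    ((e0 L (L - 1))ᵀ * M) i k = M ⟨i, by omega⟩ k := by
  rw [Matrix.mul_apply, Finset.sum_eq_single (⟨i, by omega⟩ : Fin L)]
  · simp [e0]
  · intro j _ hj
    have : ¬ ((i : ℕ) = j) := fun h => hj (Fin.ext h.symm)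
    simp [e0, this]
  · intro h
    exact absurd (Finset.mem_univ _) h

theorem e1T_mul {L : ℕ} {p : Type} (M : Matrix (Fin L) p ℂ) (i : Fin (L - 1)) (k : p) :
    ((e1 L (L - 1))ᵀ * M) i k = M ⟨i + 1, by omega⟩ k := by
  rw [Matrix.mul_apply, Finset.sum_eq_single (⟨i + 1, by omega⟩ : Fin L)]
  · simp [e1]
  · intro j _ hj
    have : ¬ ((i : ℕ) + 1 = j) := fun h => hj (Fin.ext h.symm)
    simp [e1, this]
  · intro h
    exact absurd (Finset.mem_univ _) h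

theorem e00 (L : ℕ) : (e0 L (L - 1))ᵀ * e0 L (L - 1) = 1 := by
  ext i k
  rw [e0T_mul, Matrix.one_apply, e0_ap]
  by_cases h : i = k
  · simp [h]
  · have : ¬ ((k : ℕ) = i) := fun h' => h (Fin.ext h'.symm)
    simp [h, this]

theorem e11 (L : ℕ) : (e1 L (L - 1))ᵀ * e1 L (L - 1) = 1 := by
  ext i k
  rw [e1T_mul, Matrix.one_apply, e1_ap]
  by_cases h : i = k
  · simp [h]
  · have : ¬ ((k : ℕ) = i) := fun h' => h (Fin.ext h'.symm)
    simp [h, this]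

theorem e01 (L : ℕ) : (e0 L (L - 1))ᵀ * e1 L (L - 1) = cx (tm (L - 1))ᵀ := by
  ext i k
  rw [e0T_mul, e1_ap, cx_ap, Matrix.transpose_apply, tm_ap]
  by_cases h : (k : ℕ) + 1 = i
  · rw [if_pos h, if_pos h.symm]
    simp
  · have : ¬ ((i : ℕ) = k + 1) := fun h' => h h'.symm
    rw [if_neg h, if_neg this]
    simp

theorem e10 (L : ℕ) : (e1 L (L - 1))ᵀ * e0 L (L - 1) = cx (tm (L - 1)) := by
  ext i k
  rw [e1T_mul, e0_ap, cx_ap, tm_ap]
  by_cases h : (k : ℕ) = i + 1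
  · rw [if_pos h, if_pos h]
    simp
  · rw [if_neg h, if_neg h]
    simp

theorem e0_ct (L : ℕ) : (e0 L (L - 1))ᴴ = (e0 L (L - 1))ᵀ := by
  ext i k
  rw [Matrix.conjTranspose_apply, Matrix.transpose_apply, e0_ap]
  split_ifs <;> simp

theorem e1_ct (L : ℕ) : (e1 L (L - 1))ᴴ = (e1 L (L - 1))ᵀ := by
  ext i k
  rw [Matrix.conjTranspose_apply, Matrix.transpose_apply, e1_ap]
  split_ifs <;> simp

theorem lDD_diag (L : ℕ) (i : Fin (L - 1)) : lDD L i i = 2 := by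
  unfold lDD
  have key : ∀ f : Fin L → ℝ, ∑ j : Fin L, ((if (i : ℕ) = j then (1 : ℝ) else 0) -
      (if (i : ℕ) + 1 = j then 1 else 0)) * f j = f ⟨i, by omega⟩ - f ⟨i + 1, by omega⟩ := by
    intro f
    simp_rw [sub_mul]
    rw [Finset.sum_sub_distrib]
    congr 1
    · rw [Finset.sum_eq_single (⟨i, by omega⟩ : Fin L)]
      · simp
      · intro j _ hj
        have : ¬ ((i : ℕ) = j) := fun h => hj (Fin.ext h.symm)
        simp [this]
      · intro h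
        exact absurd (Finset.mem_univ _) h
    · rw [Finset.sum_eq_single (⟨i + 1, by omega⟩ : Fin L)]
      · simp
      · intro j _ hj
        have : ¬ ((i : ℕ) + 1 = j) := fun h => hj (Fin.ext h.symm)
        simp [this]
      · intro h
        exact absurd (Finset.mem_univ _) h
  rw [Matrix.mul_apply]
  have e : ∀ j, (dm L (L - 1))ᵀ i j * dm L (L - 1) j i =
      ((if (i : ℕ) = j then (1 : ℝ) else 0) - (if (i : ℕ) + 1 = j then 1 else 0)) *
        dm L (L - 1) j i := fun j => rfl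
  rw [Finset.sum_congr rfl (fun j _ => e j), key]
  unfold dm
  simp
  norm_num

theorem diag2 (L : ℕ) : (Matrix.diagonal fun i => ((lDD L i i : ℝ) : ℂ)) =
    (2 : ℂ) • (1 : Matrix (Fin (L - 1)) (Fin (L - 1)) ℂ) := by
  ext i k
  by_cases h : i = k
  · subst h
    simp [lDD_diag]
  · simp [h]

/-! ### the phases -/

/-- `exp (i r)` -/
def U (r : ℝ) : ℂ := Complex.exp (Complex.I * (r : ℝ))

theorem U_add (r s : ℝ) : U (r + s) = U r * U s := by
  unfold U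
  rw [← Complex.exp_add]
  congr 1
  push_cast
  ring

theorem U_eq (r : ℝ) : U r = (Real.cos r : ℝ) + (Real.sin r : ℝ) * Complex.I := by
  unfold U
  rw [mul_comm, Complex.exp_mul_I, Complex.ofReal_cos, Complex.ofReal_sin]

theorem c_eq (θ : ℝ) : -(2 * Complex.I * (Real.sin (θ / 4) : ℝ)) = U (-(θ / 4)) - U (θ / 4) := by
  rw [U_eq, U_eq, Real.cos_neg, Real.sin_neg]
  push_cast
  ring

theorem kap_eq (θ : ℝ) : kap θ = 2 - U (θ / 2) - U (-(θ / 2)) := by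
  unfold kap
  rw [U_eq, U_eq, Real.cos_neg, Real.sin_neg]
  push_cast
  ring

theorem cU (θ a b : ℝ) : (U (-(θ / 4)) - U (θ / 4)) * (U a * U b) =
    U (a + b - θ / 4) - U (a + b + θ / 4) := by
  have h1 : U (a + b - θ / 4) = U a * U b * U (-(θ / 4)) := by
    rw [← U_add, ← U_add]
    congr 1
  have h2 : U (a + b + θ / 4) = U a * U b * U (θ / 4) := by
    rw [← U_add, ← U_add]
  rw [h1, h2]
  ring

theorem U_congr {a b : ℝ} (h : a = b) : U a = U b := by rw [h]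

/-- the identity for the hopping with the phase -/
theorem id1 (L : ℕ) (θ : ℝ) :
    (phs θ 1 (1 / 2) : Matrix (Fin L) (Fin L) ℂ) * cx (dm L (L - 1)) =
    cx (dm L (L - 1)) * (phs θ 1 1 : Matrix (Fin (L - 1)) (Fin (L - 1)) ℂ) +
      (-(2 * Complex.I * (Real.sin (θ / 4) : ℝ))) •
      ((phs θ (1 / 2) (1 / 2) : Matrix (Fin L) (Fin L) ℂ) * cx (nm L (L - 1)) *
        (phs θ (1 / 2) 1 : Matrix (Fin (L - 1)) (Fin (L - 1)) ℂ)) := by
  rw [c_eq]
  ext j i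
  simp only [phs, Matrix.add_apply, Matrix.smul_apply, Matrix.diagonal_mul, Matrix.mul_diagonal,
    smul_eq_mul, cx_ap, dm_ap, nm_ap]
  have e : ∀ r : ℝ, Complex.exp (Complex.I * (r : ℝ)) = U r := fun r => rfl
  simp only [e]
  by_cases h1 : (i : ℕ) = j
  · have h2 : ¬ ((i : ℕ) + 1 = j) := by omega
    simp only [h1, h2, if_true, if_false]
    have h3 : ¬ ((j : ℕ) + 1 = j) := by omega
    simp only [h3, if_false, sub_zero, add_zero, Complex.ofReal_one, mul_one, one_mul]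
    rw [cU]
    rw [U_congr (show θ * (1 / 2) * (((j : ℕ) : ℝ) + 1 / 2) + θ * (1 / 2) * (((j : ℕ) : ℝ) + 1) -
      θ / 4 = θ * 1 * (((j : ℕ) : ℝ) + 1 / 2) by ring),
      U_congr (show θ * (1 / 2) * (((j : ℕ) : ℝ) + 1 / 2) + θ * (1 / 2) * (((j : ℕ) : ℝ) + 1) +
      θ / 4 = θ * 1 * (((j : ℕ) : ℝ) + 1) by ring)]
    simp only [mul_one]
    ring
  · by_cases h2 : (i : ℕ) + 1 = j
    · simp only [h1, h2, if_true, if_false]
      have h3 : ((i : ℕ) : ℝ) = (j : ℕ) - 1 := by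
        rw [← h2]; push_cast; ring
      simp only [zero_sub, zero_add, Complex.ofReal_one, Complex.ofReal_neg, mul_neg, mul_one,
        neg_mul, one_mul]
      rw [cU, h3]
      rw [U_congr (show θ * (1 / 2) * (((j : ℕ) : ℝ) + 1 / 2) +
        θ * (1 / 2) * (((j : ℕ) : ℝ) - 1 + 1) - θ / 4 = θ * (((j : ℕ) : ℝ) - 1 + 1) by ring),
        U_congr (show θ * (1 / 2) * (((j : ℕ) : ℝ) + 1 / 2) +
        θ * (1 / 2) * (((j : ℕ) : ℝ) - 1 + 1) + θ / 4 = θ * (((j : ℕ) : ℝ) + 1 / 2) by ring)]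
      ring
    · simp [h1, h2]

theorem id2 (L : ℕ) (θ : ℝ) :
    (phs θ (-1) (1 / 2) : Matrix (Fin L) (Fin L) ℂ) * cx (dm L (L - 1)) =
    cx (dm L (L - 1)) * (phs θ (-1) 1 : Matrix (Fin (L - 1)) (Fin (L - 1)) ℂ) -
      (-(2 * Complex.I * (Real.sin (θ / 4) : ℝ))) •
      ((phs θ (-(1 / 2)) (1 / 2) : Matrix (Fin L) (Fin L) ℂ) * cx (nm L (L - 1)) *
        (phs θ (-(1 / 2)) 1 : Matrix (Fin (L - 1)) (Fin (L - 1)) ℂ)) := by
  rw [c_eq]
  ext j i
  simp only [phs, Matrix.sub_apply, Matrix.smul_apply, Matrix.diagonal_mul, Matrix.mul_diagonal,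
    smul_eq_mul, cx_ap, dm_ap, nm_ap]
  have e : ∀ r : ℝ, Complex.exp (Complex.I * (r : ℝ)) = U r := fun r => rfl
  simp only [e]
  by_cases h1 : (i : ℕ) = j
  · have h3 : ¬ ((j : ℕ) + 1 = j) := by omega
    simp only [h1, h3, if_true, if_false, sub_zero, add_zero, Complex.ofReal_one, mul_one,
      one_mul]
    rw [cU]
    rw [U_congr (show θ * (-(1 / 2)) * (((j : ℕ) : ℝ) + 1 / 2) +
      θ * (-(1 / 2)) * (((j : ℕ) : ℝ) + 1) - θ / 4 = θ * (-1) * (((j : ℕ) : ℝ) + 1) by ring),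
      U_congr (show θ * (-(1 / 2)) * (((j : ℕ) : ℝ) + 1 / 2) +
      θ * (-(1 / 2)) * (((j : ℕ) : ℝ) + 1) + θ / 4 = θ * (-1) * (((j : ℕ) : ℝ) + 1 / 2) by ring)]
    ring
  · by_cases h2 : (i : ℕ) + 1 = j
    · simp only [h1, h2, if_true, if_false]
      have h3 : ((i : ℕ) : ℝ) = (j : ℕ) - 1 := by
        rw [← h2]; push_cast; ring
      simp only [zero_sub, zero_add, Complex.ofReal_one, Complex.ofReal_neg, mul_neg, mul_one,
        neg_mul, one_mul]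
      rw [h3]
      have h4 := cU θ (-(θ * (1 / 2)) * (((j : ℕ) : ℝ) + 1 / 2))
        (-(θ * (1 / 2)) * (((j : ℕ) : ℝ) - 1 + 1))
      rw [U_congr (show -(θ * (1 / 2)) * (((j : ℕ) : ℝ) + 1 / 2) +
        -(θ * (1 / 2)) * (((j : ℕ) : ℝ) - 1 + 1) - θ / 4 = -(θ * (((j : ℕ) : ℝ) + 1 / 2)) by ring),
        U_congr (show -(θ * (1 / 2)) * (((j : ℕ) : ℝ) + 1 / 2) +
        -(θ * (1 / 2)) * (((j : ℕ) : ℝ) - 1 + 1) + θ / 4 = -(θ * (((j : ℕ) : ℝ) - 1 + 1)) by ring),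
        neg_mul, neg_mul] at h4
      rw [h4]
      ring
    · simp [h1, h2]

theorem id3 (L : ℕ) (θ : ℝ) : kap θ • cx (dm L (L - 1)) =
      (-(2 * Complex.I * (Real.sin (θ / 4) : ℝ))) •
      ((phs θ (-(1 / 2)) (1 / 2) : Matrix (Fin L) (Fin L) ℂ) * cx (nm L (L - 1)) *
        (phs θ (1 / 2) 1 : Matrix (Fin (L - 1)) (Fin (L - 1)) ℂ)) -
      (-(2 * Complex.I * (Real.sin (θ / 4) : ℝ))) •
      ((phs θ (1 / 2) (1 / 2) : Matrix (Fin L) (Fin L) ℂ) * cx (nm L (L - 1)) *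
        (phs θ (-(1 / 2)) 1 : Matrix (Fin (L - 1)) (Fin (L - 1)) ℂ)) := by
  rw [c_eq, kap_eq]
  ext j i
  simp only [phs, Matrix.sub_apply, Matrix.smul_apply, Matrix.diagonal_mul, Matrix.mul_diagonal,
    smul_eq_mul, cx_ap, dm_ap, nm_ap]
  have e : ∀ r : ℝ, Complex.exp (Complex.I * (r : ℝ)) = U r := fun r => rfl
  simp only [e]
  have hU0 : U 0 = 1 := by simp [U]
  by_cases h1 : (i : ℕ) = j
  · have h3 : ¬ ((j : ℕ) + 1 = j) := by omega
    simp only [h1, h3, if_true, if_false, sub_zero, add_zero, Complex.ofReal_one, mul_one]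
    rw [cU, cU]
    rw [U_congr (show θ * (-(1 / 2)) * (((j : ℕ) : ℝ) + 1 / 2) +
      θ * (1 / 2) * (((j : ℕ) : ℝ) + 1) - θ / 4 = 0 by ring),
      U_congr (show θ * (-(1 / 2)) * (((j : ℕ) : ℝ) + 1 / 2) +
      θ * (1 / 2) * (((j : ℕ) : ℝ) + 1) + θ / 4 = θ / 2 by ring),
      U_congr (show θ * (1 / 2) * (((j : ℕ) : ℝ) + 1 / 2) +
      θ * (-(1 / 2)) * (((j : ℕ) : ℝ) + 1) - θ / 4 = -(θ / 2) by ring),
      U_congr (show θ * (1 / 2) * (((j : ℕ) : ℝ) + 1 / 2) +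
      θ * (-(1 / 2)) * (((j : ℕ) : ℝ) + 1) + θ / 4 = 0 by ring), hU0]
    ring
  · by_cases h2 : (i : ℕ) + 1 = j
    · have h3 : ((i : ℕ) : ℝ) = (j : ℕ) - 1 := by
        rw [← h2]; push_cast; ring
      simp only [h1, h2, if_true, if_false, zero_sub, zero_add, Complex.ofReal_one,
        Complex.ofReal_neg, mul_one]
      rw [h3, cU, cU]
      rw [U_congr (show θ * (-(1 / 2)) * (((j : ℕ) : ℝ) + 1 / 2) +
        θ * (1 / 2) * (((j : ℕ) : ℝ) - 1 + 1) - θ / 4 = -(θ / 2) by ring),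
        U_congr (show θ * (-(1 / 2)) * (((j : ℕ) : ℝ) + 1 / 2) +
        θ * (1 / 2) * (((j : ℕ) : ℝ) - 1 + 1) + θ / 4 = 0 by ring),
        U_congr (show θ * (1 / 2) * (((j : ℕ) : ℝ) + 1 / 2) +
        θ * (-(1 / 2)) * (((j : ℕ) : ℝ) - 1 + 1) - θ / 4 = 0 by ring),
        U_congr (show θ * (1 / 2) * (((j : ℕ) : ℝ) + 1 / 2) +
        θ * (-(1 / 2)) * (((j : ℕ) : ℝ) - 1 + 1) + θ / 4 = θ / 2 by ring), hU0]
      ring
    · simp [h1, h2]

/-! ### the main identities -/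

theorem cxT_mul_dm (L : ℕ) : cx (dm L (L - 1))ᵀ * cx (dm L (L - 1)) = cx (lDD L) := by
  rw [← cx_mul]; rfl

theorem lNN_mul (L : ℕ) : cx (lNN L) * cx (dm L (L - 1)) = cx (dm L (L - 1)) * cx (lDD L) := by
  rw [← cx_mul, ← cx_mul]
  unfold lNN lDD
  rw [Matrix.mul_assoc]

theorem lND_mul (L : ℕ) : cx (lND L) * cx (dm L L) = cx (dm L L) * cx (lDN L) := by
  rw [← cx_mul, ← cx_mul]
  unfold lND lDN
  rw [Matrix.mul_assoc]

theorem g1g1 (L : ℕ) : (g1 L)ᴴ * g1 L = k4 (cx (lDD L)) 1 1 1 := by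
  unfold g1
  rw [k4_ct, k4_mul, cx_ct, cxT_mul_dm]
  simp only [Matrix.conjTranspose_one, Matrix.one_mul]

theorem g3g3 (L : ℕ) : (g3 L)ᴴ * g3 L = k4 1 1 (cx (lDD L)) 1 := by
  unfold g3
  rw [k4_ct, k4_mul, cx_ct, cxT_mul_dm]
  simp only [Matrix.conjTranspose_one, Matrix.one_mul]

theorem g4g4 (L : ℕ) : (g4 L)ᴴ * g4 L = k4 1 1 1 (cx (lDN L)) := by
  unfold g4
  rw [k4_ct, k4_mul, cx_ct, ← cx_mul]
  simp only [Matrix.conjTranspose_one, Matrix.one_mul]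
  rfl

theorem g2g2 (L : ℕ) (θ : ℝ) : (g2 L θ)ᴴ * g2 L θ =
    k4 1 (Matrix.diagonal fun i => ((lDD L i i : ℝ) : ℂ)) 1 1
    - k4 (phs θ 1 1) (cx (tm (L - 1))) 1 1 - k4 (phs θ (-1) 1) (cx (tm (L - 1))ᵀ) 1 1 := by
  unfold g2
  rw [Matrix.conjTranspose_sub, k4_ct, k4_ct, e0_ct, e1_ct, phs_ct, phs_ct, Matrix.sub_mul,
    Matrix.mul_sub, Matrix.mul_sub, k4_mul, k4_mul, k4_mul, k4_mul, phs_mul, phs_mul, phs_mul,
    phs_mul, e00, e01, e10, e11, diag2, k4_smul2]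
  simp only [Matrix.conjTranspose_one, Matrix.one_mul, neg_neg]
  have z1 : (-(1 / 2) + 1 / 2 : ℝ) = 0 := by ring
  have z2 : (-(1 / 2) + -(1 / 2) : ℝ) = -1 := by ring
  have z3 : (1 / 2 + 1 / 2 : ℝ) = 1 := by ring
  have z4 : (1 / 2 + -(1 / 2) : ℝ) = 0 := by ring
  rw [z1, z2, z3, z4, phs_zero, two_smul]
  abel

theorem part1 (L : ℕ) (θ : ℝ) : (gV L θ)ᴴ * gV L θ + (g4 L)ᴴ * g4 L = lap L θ := by
  unfold gV
  rw [Matrix.conjTranspose_fromRows_eq_fromCols_conjTranspose, Matrix.fromCols_mul_fromRows,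
    Matrix.conjTranspose_fromRows_eq_fromCols_conjTranspose, Matrix.fromCols_mul_fromRows,
    g1g1, g2g2, g3g3, g4g4]
  unfold lap covL
  abel

theorem part3 (L : ℕ) (θ : ℝ) : m33 L θ * g3 L = g3 L * lap L θ := by
  unfold m33 g3 lap covL
  simp only [Matrix.add_mul, Matrix.sub_mul, Matrix.mul_add, Matrix.mul_sub, k4_mul,
    Matrix.one_mul, Matrix.mul_one, lNN_mul]

theorem part4 (L : ℕ) (θ : ℝ) : m44 L θ * g4 L = g4 L * lap L θ := by
  unfold m44 g4 lap covL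
  simp only [Matrix.add_mul, Matrix.sub_mul, Matrix.mul_add, Matrix.mul_sub, k4_mul,
    Matrix.one_mul, Matrix.mul_one, lND_mul]

/-- short names for the blocks -/
def kk (L : ℕ) (M : Matrix (Fin L) (Fin (L - 1)) ℂ) (N : Matrix (Fin (L - 1)) (Fin (L - 1)) ℂ) :
    Matrix (I1 L) (I0 L) ℂ := k4 M N 1 1

theorem kk_add (L : ℕ) (M M' : Matrix (Fin L) (Fin (L - 1)) ℂ)
    (N : Matrix (Fin (L - 1)) (Fin (L - 1)) ℂ) : kk L (M + M') N = kk L M N + kk L M' N :=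
  k4_add1 _ _ _ _ _

theorem kk_sub (L : ℕ) (M M' : Matrix (Fin L) (Fin (L - 1)) ℂ)
    (N : Matrix (Fin (L - 1)) (Fin (L - 1)) ℂ) : kk L (M - M') N = kk L M N - kk L M' N :=
  k4_sub1 _ _ _ _ _

theorem kk_smul (L : ℕ) (c : ℂ) (M : Matrix (Fin L) (Fin (L - 1)) ℂ)
    (N : Matrix (Fin (L - 1)) (Fin (L - 1)) ℂ) : kk L (c • M) N = c • kk L M N :=
  k4_smul1 _ _ _ _ _

theorem part2a (L : ℕ) (θ : ℝ) : m11 L θ * g1 L = kk L (cx (dm L (L - 1)) * cx (lDD L)) 1 +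
    kk L (cx (dm L (L - 1))) (Matrix.diagonal fun i => ((lDD L i i : ℝ) : ℂ)) -
    kk L ((phs θ 1 (1 / 2) : Matrix (Fin L) (Fin L) ℂ) * cx (dm L (L - 1))) (cx (tm (L - 1))) -
    kk L ((phs θ (-1) (1 / 2) : Matrix (Fin L) (Fin L) ℂ) * cx (dm L (L - 1)))
      (cx (tm (L - 1))ᵀ) +
    k4 (cx (dm L (L - 1))) 1 (cx (lDD L)) 1 + k4 (cx (dm L (L - 1))) 1 1 (cx (lDN L)) -
    kap θ • kk L (cx (dm L (L - 1))) 1 := by
  unfold m11 g1 covL kk
  simp only [Matrix.add_mul, Matrix.sub_mul, k4_mul, Matrix.one_mul, Matrix.mul_one, lNN_mul,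
    Matrix.smul_mul]

theorem part2c (L : ℕ) (θ : ℝ) : g1 L * lap L θ = kk L (cx (dm L (L - 1)) * cx (lDD L)) 1 +
    kk L (cx (dm L (L - 1))) (Matrix.diagonal fun i => ((lDD L i i : ℝ) : ℂ)) -
    kk L (cx (dm L (L - 1)) * (phs θ 1 1 : Matrix (Fin (L - 1)) (Fin (L - 1)) ℂ))
      (cx (tm (L - 1))) -
    kk L (cx (dm L (L - 1)) * (phs θ (-1) 1 : Matrix (Fin (L - 1)) (Fin (L - 1)) ℂ))
      (cx (tm (L - 1))ᵀ) +
    k4 (cx (dm L (L - 1))) 1 (cx (lDD L)) 1 + k4 (cx (dm L (L - 1))) 1 1 (cx (lDN L)) := by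
  unfold lap g1 covL kk
  simp only [Matrix.mul_add, Matrix.mul_sub, k4_mul, Matrix.one_mul, Matrix.mul_one]

theorem part2b (L : ℕ) (θ : ℝ) : m12 L θ * g2 L θ =
    (-(2 * Complex.I * (Real.sin (θ / 4) : ℝ))) •
    (kk L ((phs θ (1 / 2) (1 / 2) : Matrix (Fin L) (Fin L) ℂ) * cx (nm L (L - 1)) *
        (phs θ (1 / 2) 1 : Matrix (Fin (L - 1)) (Fin (L - 1)) ℂ)) (cx (tm (L - 1))) +
      kk L ((phs θ (-(1 / 2)) (1 / 2) : Matrix (Fin L) (Fin L) ℂ) * cx (nm L (L - 1)) *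
        (phs θ (1 / 2) 1 : Matrix (Fin (L - 1)) (Fin (L - 1)) ℂ)) 1 -
      (kk L ((phs θ (1 / 2) (1 / 2) : Matrix (Fin L) (Fin L) ℂ) * cx (nm L (L - 1)) *
        (phs θ (-(1 / 2)) 1 : Matrix (Fin (L - 1)) (Fin (L - 1)) ℂ)) 1 +
      kk L ((phs θ (-(1 / 2)) (1 / 2) : Matrix (Fin L) (Fin L) ℂ) * cx (nm L (L - 1)) *
        (phs θ (-(1 / 2)) 1 : Matrix (Fin (L - 1)) (Fin (L - 1)) ℂ)) (cx (tm (L - 1))ᵀ))) := by
  unfold m12 g2 kk
  rw [Matrix.smul_mul]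
  congr 1
  simp only [Matrix.add_mul, Matrix.mul_sub, k4_mul, Matrix.one_mul, e00, e01, e10, e11]
  rfl

theorem part2 (L : ℕ) (θ : ℝ) : m11 L θ * g1 L + m12 L θ * g2 L θ = g1 L * lap L θ := by
  rw [part2a, part2b, part2c, id1, id2, kk_add, kk_sub, kk_smul, kk_smul, ← kk_smul L (kap θ),
    id3, kk_sub, kk_smul, kk_smul]
  ext x y
  simp only [Matrix.add_apply, Matrix.sub_apply, Matrix.smul_apply, smul_eq_mul]
  ring

theorem real_symm_ct {n : Type} [Fintype n] (A : Matrix n n ℝ) (h : Aᵀ = A) : (cx A)ᴴ = cx A := by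
  rw [cx_ct, h]

theorem covL_herm {n1 n2 n3 n4 : ℕ} (x0 : ℝ) (A1 : Matrix (Fin n1) (Fin n1) ℝ)
    (A2 : Matrix (Fin n2) (Fin n2) ℝ) (A3 : Matrix (Fin n3) (Fin n3) ℝ)
    (A4 : Matrix (Fin n4) (Fin n4) ℝ) (θ : ℝ) (h1 : A1ᵀ = A1) (h3 : A3ᵀ = A3) (h4 : A4ᵀ = A4) :
    (covL x0 A1 A2 A3 A4 θ).IsHermitian := by
  unfold Matrix.IsHermitian covL
  have hd : (Matrix.diagonal fun i => ((A2 i i : ℝ) : ℂ))ᴴ =
      Matrix.diagonal fun i => ((A2 i i : ℝ) : ℂ) := by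
    rw [Matrix.diagonal_conjTranspose]
    congr 1
    funext i
    simp
  simp only [Matrix.conjTranspose_add, Matrix.conjTranspose_sub, k4_ct, Matrix.conjTranspose_one,
    cx_ct, phs_ct, h1, h3, h4, hd, neg_neg, Matrix.transpose_transpose]
  abel

theorem lDD_symm (L : ℕ) : (lDD L)ᵀ = lDD L := by
  unfold lDD
  rw [Matrix.transpose_mul, Matrix.transpose_transpose]

theorem lNN_symm (L : ℕ) : (lNN L)ᵀ = lNN L := by
  unfold lNN
  rw [Matrix.transpose_mul, Matrix.transpose_transpose]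

theorem lDN_symm (L : ℕ) : (lDN L)ᵀ = lDN L := by
  unfold lDN
  rw [Matrix.transpose_mul, Matrix.transpose_transpose]

theorem lND_symm (L : ℕ) : (lND L)ᵀ = lND L := by
  unfold lND
  rw [Matrix.transpose_mul, Matrix.transpose_transpose]

theorem kap_one_herm {n : Type} [Fintype n] [DecidableEq n] (θ : ℝ) :
    (kap θ • (1 : Matrix n n ℂ)).IsHermitian := by
  unfold Matrix.IsHermitian
  rw [Matrix.conjTranspose_smul, Matrix.conjTranspose_one]
  congr 1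
  unfold kap
  exact Complex.conj_ofReal _

theorem part5 (L : ℕ) (θ : ℝ) : (mF L θ).IsHermitian := by
  have a11 : (m11 L θ).IsHermitian :=
    (covL_herm _ _ _ _ _ θ (lNN_symm L) (lDD_symm L) (lDN_symm L)).sub (kap_one_herm θ)
  have a22 : (m22 L θ).IsHermitian :=
    (covL_herm _ _ _ _ _ θ (lDD_symm L) (lDD_symm L) (lDN_symm L)).sub (kap_one_herm θ)
  have a33 : (m33 L θ).IsHermitian :=
    covL_herm _ _ _ _ _ θ (lDD_symm L) (lNN_symm L) (lDN_symm L)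
  have a44 : (m44 L θ).IsHermitian :=
    covL_herm _ _ _ _ _ θ (lDD_symm L) (lDD_symm L) (lND_symm L)
  unfold mF mH
  refine Matrix.IsHermitian.fromBlocks ?_ ?_ a44
  · refine Matrix.IsHermitian.fromBlocks a11 ?_ ?_
    · rw [Matrix.conjTranspose_fromCols_eq_fromRows_conjTranspose, Matrix.conjTranspose_zero]
    · refine Matrix.IsHermitian.fromBlocks a22 ?_ a33
      rw [Matrix.conjTranspose_zero]
  · rw [Matrix.conjTranspose_zero]

/-- **Task AF-G1.** -/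
theorem tg1 : S_G1 := by
  intro L _ θ
  exact ⟨part1 L θ, part2 L θ, part3 L θ, part4 L θ, part5 L θ⟩

end

end Pool.Agent.H628.AF
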